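import Pool.Agent.Lib.MP_b63a06_co.FR.Main

set_option autoImplicit false

/-!
# MP_b63a06_co: Reed's bound for all cubelike graphs

A *cubelike* graph is a Cayley graph of an elementary abelian `2`-group, i.e. a graph which has a
vertex-transitive group of automorphisms in which all elements satisfy `g * g = 1`. Reed's bound
`χ ≤ (ω + Δ + 1) / 2` holds for all of them, with the floor instead of the ceiling.
-/

namespace Pool.Agent.Results.MP_b63a06_co.CubelikeReed

open Pool.Agent.Lib.MP_b63a06_co Pool.Agent.Lib.MP_b63a06_co.FR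

/-- Cayley graphs. -/
theorem cayley (V : Type) [AddCommGroup V] [Fintype V] (h2 : ∀ x : V, x + x = 0)
    (S : Set V) (G : SimpleGraph V) [DecidableRel G.Adj]
    (hG : ∀ x y : V, G.Adj x y ↔ x + y ∈ S) :
    G.Colorable ((G.cliqueNum + G.maxDegree + 1) / 2) := by
  classical
  exact cMAI V h2 S G hG

/-- A group in which all elements are involutions is commutative. -/
theorem comm {V : Type} {G : SimpleGraph V} (Γ : Subgroup (G ≃g G)) (h2 : ∀ g ∈ Γ, g * g = 1)
    (g h : G ≃g G) (hg : g ∈ Γ) (hh : h ∈ Γ) : g * h = h * g := by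
  have ig : g⁻¹ = g := inv_eq_of_mul_eq_one_left (h2 g hg)
  have ih : h⁻¹ = h := inv_eq_of_mul_eq_one_left (h2 h hh)
  have igh : (g * h)⁻¹ = g * h := inv_eq_of_mul_eq_one_left (h2 _ (Γ.mul_mem hg hh))
  rw [mul_inv_rev, ig, ih] at igh
  exact igh.symm

/-- Reed's bound, with the floor, for every finite graph with a vertex-transitive group `Γ` of
automorphisms such that `g * g = 1` for all `g ∈ Γ`. -/
theorem result (V : Type) [Fintype V] (G : SimpleGraph V) [DecidableRel G.Adj]
    (Γ : Subgroup (G ≃g G)) (h2 : ∀ g ∈ Γ, g * g = 1) (ht : ∀ x y : V, ∃ g ∈ Γ, g x = y) :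
    G.Colorable ((G.cliqueNum + G.maxDegree + 1) / 2) := by
  classical
  by_cases hX : Nonempty V
  · obtain ⟨x₀⟩ := hX
    let _ : CommGroup Γ := { (inferInstance : Group Γ) with
      mul_comm := fun a b => Subtype.ext (comm Γ h2 a b a.2 b.2) }
    have hbij : Function.Bijective (fun g : Additive Γ => (Additive.toMul g).1 x₀) := by
      constructor
      · intro a b hab
        have key : (Additive.toMul a) = (Additive.toMul b) := by
          apply Subtype.ext
          ext y
          obtain ⟨k, hk, hky⟩ := ht x₀ y
          have e1 : (Additive.toMul a).1 (k x₀) = k ((Additive.toMul a).1 x₀) := by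
            have := comm Γ h2 _ _ (Additive.toMul a).2 hk
            exact congrArg (fun f : G ≃g G => f x₀) this
          have e2 : (Additive.toMul b).1 (k x₀) = k ((Additive.toMul b).1 x₀) := by
            have := comm Γ h2 _ _ (Additive.toMul b).2 hk
            exact congrArg (fun f : G ≃g G => f x₀) this
          rw [← hky, e1, e2]
          exact congrArg k hab
        exact Additive.toMul.injective key
      · intro y
        obtain ⟨k, hk, hky⟩ := ht x₀ y
        exact ⟨Additive.ofMul ⟨k, hk⟩, hky⟩
    let φ : Additive Γ ≃ V := Equiv.ofBijective _ hbij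
    let _ : AddCommGroup V := φ.symm.addCommGroup
    have hadd : ∀ a b : Additive Γ, φ a + φ b = φ (a + b) := fun a b => by
      show φ (φ.symm (φ a) + φ.symm (φ b)) = _
      rw [φ.symm_apply_apply, φ.symm_apply_apply]
    have hzero : (0 : V) = φ 0 := rfl
    have htwo : ∀ x : V, x + x = 0 := by
      intro x
      obtain ⟨a, rfl⟩ := φ.surjective x
      rw [hadd, hzero]
      congr 1
      exact Additive.toMul.injective (Subtype.ext (h2 _ (Additive.toMul a).2))
    refine cayley V htwo {x | G.Adj x₀ x} G ?_
    intro x y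
    obtain ⟨a, rfl⟩ := φ.surjective x
    obtain ⟨b, rfl⟩ := φ.surjective y
    rw [hadd]
    show G.Adj _ _ ↔ G.Adj x₀ (φ (a + b))
    have hab : φ (a + b) = (Additive.toMul a).1 (φ b) := rfl
    have haa : (Additive.toMul a).1 (φ a) = x₀ := by
      have := h2 _ (Additive.toMul a).2
      exact congrArg (fun f : G ≃g G => f x₀) this
    rw [hab]
    conv_rhs => rw [← haa]
    exact ((Additive.toMul a).1.map_adj_iff).symm
  · have hE : IsEmpty V := not_nonempty_iff.1 hX
    exact ⟨SimpleGraph.Coloring.mk (fun x => (hE.false x).elim)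
      (fun {x} => (hE.false x).elim)⟩

end Pool.Agent.Results.MP_b63a06_co.CubelikeReed
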