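import Pool.Agent.Lib.MP_b63a06_co.DV.MainB

set_option autoImplicit false

/-!
# MP_b63a06_co: Reed's bound for dense vertex-transitive graphs

For every vertex-transitive graph with `n` vertices, independence number `a`, clique number `ω`, maximum
degree `Δ` and chromatic number `χ`, with `H = 1 + 1/2 + ... + 1/a`:
(1) `2 χ ≤ ω + (2 H - 1) n / a`;
(2) `χ ≤ (ω + Δ + 1) / 2` (floor) if `(2 H - 1) n ≤ a (Δ + 1)`;
(3) `χ ≤ ⌈(ω + Δ + 1) / 2⌉` if `5 n ≤ 6 (Δ + 1)`.
-/

namespace Pool.Agent.Results.MP_b63a06_co.DenseGraphs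

/-- Reed's bound for dense vertex-transitive graphs, and an upper bound for the chromatic number of
every vertex-transitive graph by its clique number, its independence number and its order. -/
theorem result (V : Type) [Fintype V] [DecidableEq V] (G : SimpleGraph V) [DecidableRel G.Adj]
    (hG : ∀ u v : V, ∃ φ : G ≃g G, φ u = v) :
    (∃ c : ℕ, G.Colorable c ∧ 2 * (c : ℚ) ≤ G.cliqueNum +
      (2 * harmonic G.indepNum - 1) * (Fintype.card V : ℚ) / G.indepNum) ∧
    ((2 * harmonic G.indepNum - 1) * (Fintype.card V : ℚ) ≤ G.indepNum * (G.maxDegree + 1) →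
      G.Colorable ((G.cliqueNum + G.maxDegree + 1) / 2)) ∧
    (5 * Fintype.card V ≤ 6 * (G.maxDegree + 1) →
      G.chromaticNumber ≤
        ((⌈(((G.cliqueNum + G.maxDegree + 1 : ℕ) : ℚ)) / 2⌉₊ : ℕ) : ℕ∞)) :=
  Pool.Agent.Lib.MPb63a06.DV.allFIB V G hG

end Pool.Agent.Results.MP_b63a06_co.DenseGraphs
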