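import Pool.Agent.Lib.MP_b63a06_co.TR.Main

set_option autoImplicit false

/-!
# MP_b63a06_co: Reed's bound for all Cayley graphs of elementary abelian 3-groups

Reed's bound `χ ≤ (ω + Δ + 1) / 2`, with the floor instead of the ceiling, holds for every finite graph
which has a transitive commutative group of automorphisms in which all elements satisfy
`g * g * g = 1`, i.e. for all Cayley graphs of the groups `(ZMod 3) ^ n`.
-/

namespace Pool.Agent.Results.MP_b63a06_co.TernaryReed

open Pool.Agent.Lib.MP_b63a06_co.TR

/-- Cayley graphs. -/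
theorem cayley (V : Type) [AddCommGroup V] [Fintype V] (h3 : ∀ x : V, x + x + x = 0)
    (S : Set V) (G : SimpleGraph V) [DecidableRel G.Adj]
    (hG : ∀ x y : V, G.Adj x y ↔ x - y ∈ S) :
    G.Colorable ((G.cliqueNum + G.maxDegree + 1) / 2) := by
  classical
  have h3' : ∀ x : V, 3 • x = 0 := fun x => by
    rw [show (3 : ℕ) = 1 + 1 + 1 from rfl, add_nsmul, add_nsmul, one_nsmul]
    exact h3 x
  let _ : Module (ZMod 3) V := AddCommGroup.zmodModule h3'
  have h0S : (0 : V) ∉ S := fun h => G.irrefl ((hG 0 0).2 (by rwa [sub_zero]))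
  have hneg : ∀ x : V, x ∈ S → -x ∈ S := by
    intro x hx
    have h1 : G.Adj x 0 := (hG x 0).2 (by rwa [sub_zero])
    have h2 := (hG 0 x).1 h1.symm
    rwa [zero_sub] at h2
  set A : Set V := insert 0 S with hA
  have hSy : Sy A := by
    refine ⟨Set.mem_insert _ _, ?_⟩
    intro a ha
    rcases Set.mem_insert_iff.1 ha with rfl | ha
    · rw [neg_zero]
      exact Set.mem_insert _ _
    · exact Set.mem_insert_of_mem _ (hneg a ha)
  have hcq : Cq A G.cliqueNum := by
    intro C hC
    have hcl : G.IsClique (C.toFinset : Set V) := by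
      intro x hx y hy hxy
      have hx' : x ∈ C := by simpa using hx
      have hy' : y ∈ C := by simpa using hy
      have h1 := hC x hx' y hy' hxy
      rcases Set.mem_insert_iff.1 h1 with h | h
      · exact absurd (sub_eq_zero.1 h) hxy
      · exact (hG x y).2 h
    have h2 := hcl.card_le_cliqueNum
    rwa [← Set.ncard_eq_toFinset_card'] at h2
  have hcard : A.ncard ≤ G.maxDegree + 1 := by
    have h1 : A = ((insert 0 (G.neighborFinset 0) : Finset V) : Set V) := by
      ext x
      simp only [hA, Set.mem_insert_iff, Finset.coe_insert, Finset.mem_coe,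
        SimpleGraph.mem_neighborFinset]
      constructor
      · rintro (h | h)
        · exact Or.inl h
        · exact Or.inr ((hG 0 x).2 (by rw [zero_sub]; exact hneg x h))
      · rintro (h | h)
        · exact Or.inl h
        · right
          have h4 := (hG x 0).1 h.symm
          rwa [sub_zero] at h4
    rw [h1, Set.ncard_coe_finset]
    refine le_trans (Finset.card_insert_le _ _) ?_
    have h5 := G.degree_le_maxDegree 0
    rw [SimpleGraph.card_neighborFinset_eq_degree]
    omega
  obtain ⟨c, hc1, hc2⟩ := allFIN V A hSy G.cliqueNum hcq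
  have hle : (A.ncard + G.cliqueNum) / 2 ≤ (G.cliqueNum + G.maxDegree + 1) / 2 := by
    apply Nat.div_le_div_right
    omega
  refine ⟨SimpleGraph.Coloring.mk (fun x => (⟨c x, lt_of_lt_of_le (hc1 x) hle⟩ :
    Fin ((G.cliqueNum + G.maxDegree + 1) / 2))) ?_⟩
  intro x y hxy h
  have h6 : c x = c y := congrArg Fin.val h
  exact hc2 x y (G.ne_of_adj hxy) (Set.mem_insert_of_mem _ ((hG x y).1 hxy)) h6

/-- Reed's bound, with the floor, for every finite graph with a transitive commutative group `Γ` of
automorphisms such that `g * g * g = 1` for all `g ∈ Γ`. -/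
theorem result (V : Type) [Fintype V] (G : SimpleGraph V) [DecidableRel G.Adj]
    (Γ : Subgroup (G ≃g G)) (hc : ∀ g ∈ Γ, ∀ h ∈ Γ, g * h = h * g)
    (h3 : ∀ g ∈ Γ, g * g * g = 1) (ht : ∀ x y : V, ∃ g ∈ Γ, g x = y) :
    G.Colorable ((G.cliqueNum + G.maxDegree + 1) / 2) := by
  classical
  by_cases hX : Nonempty V
  · obtain ⟨x₀⟩ := hX
    let _ : CommGroup Γ := { (inferInstance : Group Γ) with
      mul_comm := fun a b => Subtype.ext (hc a a.2 b b.2) }
    have hbij : Function.Bijective (fun g : Additive Γ => (Additive.toMul g).1 x₀) := by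
      constructor
      · intro a b hab
        have key : (Additive.toMul a) = (Additive.toMul b) := by
          apply Subtype.ext
          ext y
          obtain ⟨k, hk, hky⟩ := ht x₀ y
          have e1 : (Additive.toMul a).1 (k x₀) = k ((Additive.toMul a).1 x₀) := by
            have := hc _ (Additive.toMul a).2 _ hk
            exact congrArg (fun f : G ≃g G => f x₀) this
          have e2 : (Additive.toMul b).1 (k x₀) = k ((Additive.toMul b).1 x₀) := by
            have := hc _ (Additive.toMul b).2 _ hk
            exact congrArg (fun f : G ≃g G => f x₀) this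
          rw [← hky, e1, e2]
          exact congrArg k hab
        exact Additive.toMul.injective key
      · intro y
        obtain ⟨k, hk, hky⟩ := ht x₀ y
        exact ⟨Additive.ofMul ⟨k, hk⟩, hky⟩
    let φ : Additive Γ ≃ V := Equiv.ofBijective _ hbij
    let _ : AddCommGroup V := φ.symm.addCommGroup
    have hadd : ∀ a b : Additive Γ, φ a + φ b = φ (a + b) := fun a b => by
      show φ (φ.symm (φ a) + φ.symm (φ b)) = _
      rw [φ.symm_apply_apply, φ.symm_apply_apply]
    have hzero : (0 : V) = φ 0 := rfl
    have hthree : ∀ x : V, x + x + x = 0 := by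
      intro x
      obtain ⟨a, rfl⟩ := φ.surjective x
      rw [hadd, hadd, hzero]
      congr 1
      exact Additive.toMul.injective (Subtype.ext (h3 _ (Additive.toMul a).2))
    refine cayley V hthree {x | G.Adj x₀ x} G ?_
    intro x y
    obtain ⟨b, rfl⟩ := φ.surjective y
    obtain ⟨d, hd⟩ := φ.surjective (x - φ b)
    have hx : x = φ (b + d) := by
      rw [← hadd, hd]
      abel
    rw [hx]
    have h7 : φ (b + d) - φ b = φ d := by
      rw [← hadd]
      abel
    rw [h7]
    show G.Adj _ _ ↔ G.Adj x₀ (φ d)
    have hab : φ (b + d) = (Additive.toMul b).1 (φ d) := rfl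
    have haa : φ b = (Additive.toMul b).1 x₀ := rfl
    rw [hab, haa, SimpleGraph.adj_comm]
    exact (Additive.toMul b).1.map_adj_iff
  · have hE : IsEmpty V := not_nonempty_iff.1 hX
    exact ⟨SimpleGraph.Coloring.mk (fun x => (hE.false x).elim)
      (fun {x} => (hE.false x).elim)⟩

end Pool.Agent.Results.MP_b63a06_co.TernaryReed
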